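import Pool.Agent.PRAR.Final
import Pool.Agent.PRAR.K.M

/-!
# Linear partition rank bounds for biased multilinear forms on `S^n`

The partition rank of a multilinear form over a finite field is at most a constant times its
analytic rank (`Pool/Agent/PRAR`), and the alphabet `S` plays no role
(`Pool/Agent/H/MP_d91f4a_co/Equiv.lean`).
-/

namespace Pool.Agent.Results.MP_d91f4a_co.LinearBound

open Finset
open Pool.Agent.H.MP_d91f4a_co

/-- For every prime `p`, every `d ≥ 2` and every `S ⊆ F_p` with `|S| ≥ 2` there is `C > 0` such that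
for all `n ≥ 1`, `ε ∈ (0, 1]` and all `d`-linear forms `m` on `F_p^n`: if `|bias_{t,S} m| ≥ ε` for
some `t ≠ 0`, then `pr m ≤ C log (1/ε)`. -/
theorem result (p : ℕ) [Fact p.Prime] (d : ℕ) (hd : 2 ≤ d) (S : Finset (ZMod p)) (hS : 2 ≤ #S) :
    LinBound p d S :=
  PRAR.linBound_of p d hd
    (PRAR.scalarBound_all (Fin d) ⟨0, by omega⟩ ⟨⟨1, by omega⟩, by simp⟩) S hS

end Pool.Agent.Results.MP_d91f4a_co.LinearBound
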