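import Pool.Agent.H.MP_d91f4a_co.Equiv

/-!
# The bias on `S^n` is at most a fixed power of the bias on `F_p^n`
-/

namespace Pool.Agent.Results.MP_d91f4a_co.RestrictedBias

open Finset
open Pool.Agent.H.MP_d91f4a_co

/-- the largest nontrivial Fourier coefficient of the uniform distribution on `S` -/
noncomputable def fourierMax {p : ℕ} [Fact p.Prime] (S : Finset (ZMod p)) : ℝ :=
  ⨆ b : {b : ZMod p // b ≠ 0}, ‖∑ s ∈ S, (ZMod.stdAddChar (b.1 * s) : ℂ)‖ / #S

/-- For every prime `p`, every `S ⊆ F_p` with at least two elements and `c = fourierMax S < 1`,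
all `d ≥ 2`, all `n`, all `d`-linear forms `m` and all `t ≠ 0`,
`|bias_{t,S} m| ≤ (bias m) ^ ((log_p |S|)^(d-1) * log_p (1 / (c + (1-c)/|S|)))`,
where the exponent is positive. -/
theorem result (p : ℕ) [Fact p.Prime] (S : Finset (ZMod p)) (hS : 2 ≤ #S) (d : ℕ) (hd : 2 ≤ d) :
    0 < Real.logb p #S ^ (d - 1) *
        Real.logb p (fourierMax S + (1 - fourierMax S) / #S)⁻¹ ∧
      ∀ (n : ℕ) (m : Form p d n) (t : ZMod p), t ≠ 0 →
        ‖bias t S m‖ ≤ ‖bias 1 univ m‖ ^ (Real.logb p #S ^ (d - 1) *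
          Real.logb p (fourierMax S + (1 - fourierMax S) / #S)⁻¹) := by
  have hp : 2 ≤ p := (Fact.out : p.Prime).two_le
  have hSpos : (0 : ℝ) < #S := by
    have : 0 < #S := by omega
    exact_mod_cast this
  obtain ⟨c, hc0, hc1, hc⟩ := exists_char_bound S hS
  have hne : Nonempty {b : ZMod p // b ≠ 0} := ⟨⟨1, one_ne_zero⟩⟩
  have hbdd : BddAbove (Set.range fun b : {b : ZMod p // b ≠ 0} =>
      ‖∑ s ∈ S, (ZMod.stdAddChar (b.1 * s) : ℂ)‖ / #S) := Set.finite_range _ |>.bddAbove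
  have h0 : 0 ≤ fourierMax S := Real.iSup_nonneg fun b => by positivity
  have h1 : fourierMax S < 1 := by
    refine lt_of_le_of_lt (ciSup_le fun b => ?_) hc1
    rw [div_le_iff₀ hSpos]
    exact hc b.1 b.2
  have h2 : ∀ b : ZMod p, b ≠ 0 →
      ‖∑ s ∈ S, (ZMod.stdAddChar (b * s) : ℂ)‖ ≤ fourierMax S * #S := by
    intro b hb
    rw [← div_le_iff₀ hSpos]
    exact le_ciSup hbdd ⟨b, hb⟩
  have e1 : expo p #S 0 = Real.logb p #S := by
    rw [expo, zero_add, sub_zero, one_div, Real.log_inv, neg_neg, Real.logb]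
  have e2 : expo p #S (fourierMax S) =
      Real.logb p (fourierMax S + (1 - fourierMax S) / #S)⁻¹ := by
    rw [expo, Real.logb, Real.log_inv]
  rw [← e1, ← e2]
  obtain ⟨e, rfl⟩ : ∃ e, d = e + 2 := ⟨d - 2, by omega⟩
  refine ⟨?_, fun n m t ht => bias_le_explicit e S hS h0 h1 h2 n m t ht⟩
  have h3 := expo_pos hp hS h0 h1
  have h4 := expo_pos hp hS le_rfl zero_lt_one
  positivity

end Pool.Agent.Results.MP_d91f4a_co.RestrictedBias
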